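import Pool.Agent.H.MP_c3079b_lc.J

namespace Pool.Agent.Results.MP_c3079b_lc.Hard
open Pool.Agent.Lib.CX

theorem result : SharpPHard
    fun a : {a : Gr // (∀ e ∈ a.2, e.1 < a.n ∧ e.2 < a.n ∧ e.1 ≠ e.2) ∧ a.G.Connected} =>
      Nat.card {A : Finset (Fin a.1.2.length) // A.card = a.1.n ∧
        (SimpleGraph.fromRel fun u v : Fin a.1.n => ∃ i ∈ A, a.1.2[i] = (u.1, v.1)).Connected} :=
  H.MP_c3079b_lc.main

end Pool.Agent.Results.MP_c3079b_lc.Hard
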